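import Mathlib

/-!
# Almost sure statements about independent signs with a small bias

`transfer`: let `ε p` (`p` in a countable set) be independent with `P(ε p = 1) + P(ε p = -1) = 1` and `∑ (P(ε p = 1) - 1/2)² < ∞`.
Then every property which holds almost surely for independent uniform signs holds almost surely for `ε`.
(The joint law is absolutely continuous: the finite dimensional densities are bounded in `L²`.)
-/

set_option autoImplicit false

namespace Pool.Agent.Helper32.KK

open MeasureTheory ProbabilityTheory Set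
open scoped ENNReal symmDiff

/-- the fair coin -/
noncomputable def U : Measure Bool := (2⁻¹ : ℝ≥0∞) • (Measure.dirac true + Measure.dirac false)

instance U_prob : IsProbabilityMeasure U := by
  constructor
  unfold U
  simp only [Measure.smul_apply, Measure.add_apply, measure_univ, smul_eq_mul]
  rw [one_add_one_eq_two]
  exact ENNReal.inv_mul_cancel two_ne_zero ENNReal.ofNat_ne_top

theorem U_singleton (b : Bool) : U {b} = 2⁻¹ := by
  unfold U
  cases b <;> simp

theorem U_real (b : Bool) : U.real {b} = 1 / 2 := by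
  rw [measureReal_def, U_singleton]
  simp

/-- finite products -/
theorem fin_ineq {κ : Type*} [Fintype κ] (ρ : κ → Measure Bool) [∀ k, IsProbabilityMeasure (ρ k)]
    (S : Set (κ → Bool)) :
    ((Measure.pi ρ).real S) ^ 2 ≤ (∏ k, (1 + 4 * ((ρ k).real {true} - 1 / 2) ^ 2)) * (Measure.pi fun _ : κ => U).real S := by
  classical
  have hS : ∀ μ : κ → Measure Bool, (∀ k, IsProbabilityMeasure (μ k)) → (Measure.pi μ).real S =
      ∑ s ∈ S.toFinset, ∏ k, (μ k).real {s k} := by
    intro μ hμ
    have h1 : (Measure.pi μ).real S = ∑ s ∈ S.toFinset, (Measure.pi μ).real {s} := by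
      rw [sum_measureReal_singleton]
      simp
    rw [h1]
    refine Finset.sum_congr rfl fun s _ => ?_
    rw [measureReal_def, Measure.pi_singleton, ENNReal.toReal_prod]
    rfl
  rw [hS ρ inferInstance, hS (fun _ => U) inferInstance]
  have h2 : ∀ s : κ → Bool, ∏ k, U.real {s k} = (1 / 2 : ℝ) ^ Fintype.card κ := by
    intro s
    rw [Finset.prod_congr rfl fun k _ => U_real (s k), Finset.prod_const, Finset.card_univ]
  rw [Finset.sum_congr rfl fun s _ => h2 s, Finset.sum_const, nsmul_eq_mul]
  have h3 := sq_sum_le_card_mul_sum_sq (s := S.toFinset) (f := fun s => ∏ k, (ρ k).real {s k})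
  have h4 : ∑ s ∈ S.toFinset, (∏ k, (ρ k).real {s k}) ^ 2 ≤ ∑ s : κ → Bool, (∏ k, (ρ k).real {s k}) ^ 2 :=
    Finset.sum_le_univ_sum_of_nonneg fun s => sq_nonneg _
  have h5 : ∑ s : κ → Bool, (∏ k, (ρ k).real {s k}) ^ 2 = ∏ k, ∑ b : Bool, (ρ k).real {b} ^ 2 := by
    rw [Finset.prod_univ_sum, Fintype.piFinset_univ]
    exact Finset.sum_congr rfl fun s _ => (Finset.prod_pow _ _ _).symm
  have h6 : ∀ k, ∑ b : Bool, (ρ k).real {b} ^ 2 = (1 / 2) * (1 + 4 * ((ρ k).real {true} - 1 / 2) ^ 2) := by
    intro k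
    have h7 : (ρ k).real {false} = 1 - (ρ k).real {true} := by
      rw [← probReal_compl_eq_one_sub (MeasurableSet.singleton true)]
      congr 1
      ext b
      cases b <;> simp
    rw [Fintype.sum_bool, h7]
    ring
  rw [h5, Finset.prod_congr rfl fun k _ => h6 k, Finset.prod_mul_distrib, Finset.prod_const, Finset.card_univ] at h4
  calc (∑ s ∈ S.toFinset, ∏ k, (ρ k).real {s k}) ^ 2
      ≤ S.toFinset.card * ∑ s ∈ S.toFinset, (∏ k, (ρ k).real {s k}) ^ 2 := h3
    _ ≤ S.toFinset.card * ((1 / 2) ^ Fintype.card κ * ∏ k, (1 + 4 * ((ρ k).real {true} - 1 / 2) ^ 2)) :=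
        mul_le_mul_of_nonneg_left h4 (Nat.cast_nonneg _)
    _ = _ := by ring

/-- the joint law is absolutely continuous -/
theorem ac {ι : Type*} (ρ : ι → Measure Bool) [∀ i, IsProbabilityMeasure (ρ i)]
    (hs : Summable fun i => ((ρ i).real {true} - 1 / 2) ^ 2) :
    Measure.infinitePi ρ ≪ Measure.infinitePi fun _ : ι => U := by
  classical
  obtain ⟨M, hM⟩ : ∃ M, M = Real.exp (4 * ∑' i, ((ρ i).real {true} - 1 / 2) ^ 2) := ⟨_, rfl⟩
  have hM0 : 0 < M := hM ▸ Real.exp_pos _
  have hprod : ∀ F : Finset ι, ∏ k : F, (1 + 4 * ((ρ k).real {true} - 1 / 2) ^ 2) ≤ M := by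
    intro F
    rw [Finset.prod_coe_sort F fun k => 1 + 4 * ((ρ k).real {true} - 1 / 2) ^ 2]
    calc ∏ k ∈ F, (1 + 4 * ((ρ k).real {true} - 1 / 2) ^ 2)
        ≤ ∏ k ∈ F, Real.exp (4 * ((ρ k).real {true} - 1 / 2) ^ 2) := by
          refine Finset.prod_le_prod (fun k _ => by positivity) fun k _ => ?_
          have := Real.add_one_le_exp (4 * ((ρ k).real {true} - 1 / 2) ^ 2)
          linarith
      _ = Real.exp (∑ k ∈ F, 4 * ((ρ k).real {true} - 1 / 2) ^ 2) := (Real.exp_sum _ _).symm
      _ ≤ M := by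
          rw [hM, Real.exp_le_exp, ← Finset.mul_sum]
          exact mul_le_mul_of_nonneg_left (hs.sum_le_tsum F fun i _ => sq_nonneg _) (by norm_num)
  obtain ⟨N, hN⟩ : ∃ N, N = Measure.infinitePi ρ := ⟨_, rfl⟩
  obtain ⟨V, hV⟩ : ∃ V, V = Measure.infinitePi fun _ : ι => U := ⟨_, rfl⟩
  have : IsProbabilityMeasure N := hN ▸ inferInstance
  have : IsProbabilityMeasure V := hV ▸ inferInstance
  rw [← hN, ← hV]
  -- cylinders
  have hcyl : ∀ B ∈ measurableCylinders fun _ : ι => Bool, N.real B ^ 2 ≤ M * V.real B := by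
    intro B hB
    obtain ⟨F, S, hS, rfl⟩ := (mem_measurableCylinders B).1 hB
    rw [measureReal_def, measureReal_def, hN, hV, Measure.infinitePi_cylinder _ hS, Measure.infinitePi_cylinder _ hS,
      ← measureReal_def, ← measureReal_def]
    refine (fin_ineq (fun k : F => ρ k) S).trans ?_
    exact mul_le_mul_of_nonneg_right (hprod F) measureReal_nonneg
  refine Measure.AbsolutelyContinuous.mk fun A hA h0 => ?_
  have hD : (N + V).MeasureDense (measurableCylinders fun _ : ι => Bool) :=
    Measure.MeasureDense.of_generateFrom_isSetAlgebra_finite (N + V) isSetAlgebra_measurableCylinders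
      generateFrom_measurableCylinders.symm
  have key : ∀ δ : ℝ, 0 < δ → N.real A ≤ δ + Real.sqrt (M * δ) := by
    intro δ hδ
    obtain ⟨B, hB, h⟩ := hD.approx A hA (measure_ne_top _ _) δ hδ
    rw [Measure.add_apply] at h
    have h1 : N.real (A ∆ B) ≤ δ := by
      rw [measureReal_def]
      exact ENNReal.toReal_le_of_le_ofReal hδ.le ((le_self_add).trans h.le)
    have h2 : V.real (A ∆ B) ≤ δ := by
      rw [measureReal_def]
      exact ENNReal.toReal_le_of_le_ofReal hδ.le ((le_add_self).trans h.le)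
    have h3 : N.real A ≤ N.real B + N.real (A ∆ B) := by
      refine (measureReal_mono (fun x hx => ?_)).trans (measureReal_union_le B (A ∆ B))
      by_cases hxB : x ∈ B
      · exact Or.inl hxB
      · exact Or.inr (Or.inl ⟨hx, hxB⟩)
    have h4 : V.real B ≤ V.real A + V.real (A ∆ B) := by
      refine (measureReal_mono (fun x hx => ?_)).trans (measureReal_union_le A (A ∆ B))
      by_cases hxA : x ∈ A
      · exact Or.inl hxA
      · exact Or.inr (Or.inr ⟨hx, hxA⟩)
    have h5 : V.real A = 0 := by rw [measureReal_def, h0, ENNReal.toReal_zero]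
    have h6 : N.real B ≤ Real.sqrt (M * δ) := by
      refine Real.le_sqrt_of_sq_le ((hcyl B hB).trans ?_)
      exact mul_le_mul_of_nonneg_left (by linarith) hM0.le
    linarith
  have h7 : N.real A = 0 := by
    by_contra hne
    have hpos : 0 < N.real A := lt_of_le_of_ne measureReal_nonneg (Ne.symm hne)
    obtain ⟨t, ht⟩ : ∃ t, t = min 1 (N.real A / (2 * (1 + Real.sqrt M))) := ⟨_, rfl⟩
    have hden : 0 < 2 * (1 + Real.sqrt M) := by positivity
    have ht0 : 0 < t := by rw [ht]; exact lt_min one_pos (div_pos hpos hden)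
    have ht1 : t ≤ 1 := by rw [ht]; exact min_le_left _ _
    have ht2 : t * (2 * (1 + Real.sqrt M)) ≤ N.real A := by
      rw [← le_div_iff₀ hden, ht]
      exact min_le_right _ _
    have h8 := key (t ^ 2) (by positivity)
    have h9 : Real.sqrt (M * t ^ 2) = Real.sqrt M * t := by
      rw [Real.sqrt_mul hM0.le, Real.sqrt_sq ht0.le]
    rw [h9] at h8
    have h10 : t ^ 2 ≤ t := by nlinarith
    nlinarith [Real.sqrt_nonneg M]
  rw [measureReal_def, ENNReal.toReal_eq_zero_iff] at h7
  exact h7.resolve_right (measure_ne_top _ _)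

/-- the sign of a coin -/
def sg (b : Bool) : ℝ := if b then 1 else -1

/-- **Transfer.** -/
theorem transfer {ι : Type*} [Countable ι] (Good : (ι → ℝ) → Prop)
    (h0 : ∀ᵐ s ∂(Measure.infinitePi fun _ : ι => U), Good fun i => sg (s i))
    {Ω : Type*} [MeasurableSpace Ω] (P : Measure Ω) [IsProbabilityMeasure P] (ε : ι → Ω → ℝ)
    (hm : ∀ i, Measurable (ε i)) (hi : iIndepFun ε P)
    (hv : ∀ i, P {ω | ε i ω = 1} + P {ω | ε i ω = -1} = 1)
    (hs : Summable fun i => (P.real {ω | ε i ω = 1} - 1 / 2) ^ 2) :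
    ∀ᵐ ω ∂P, Good fun i => ε i ω := by
  classical
  have hg : Measurable fun x : ℝ => decide (x = 1) := by
    refine measurable_to_bool ?_
    have : (fun x : ℝ => decide (x = 1)) ⁻¹' {true} = {1} := by
      ext x
      simp
    rw [this]
    exact MeasurableSet.singleton 1
  obtain ⟨B, hB⟩ : ∃ B : ι → Ω → Bool, B = fun i ω => decide (ε i ω = 1) := ⟨_, rfl⟩
  have hBm : ∀ i, Measurable (B i) := by
    intro i
    rw [hB]
    exact hg.comp (hm i)
  have hBi : iIndepFun B P := by
    rw [hB]
    exact hi.comp (fun _ x => decide (x = 1)) fun _ => hg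
  have hlaw := hBi.map_fun_eq_infinitePi_map hBm
  have : ∀ i, IsProbabilityMeasure (P.map (B i)) := fun i => Measure.isProbabilityMeasure_map (hBm i).aemeasurable
  have hr : ∀ i, (P.map (B i)).real {true} = P.real {ω | ε i ω = 1} := by
    intro i
    rw [measureReal_def, Measure.map_apply (hBm i) (MeasurableSet.singleton true), measureReal_def]
    congr 2
    ext ω
    rw [hB]
    simp
  have hac := ac (fun i => P.map (B i)) (by simpa only [hr] using hs)
  rw [← hlaw] at hac
  have h1 := hac.ae_le h0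
  have hBall : Measurable fun ω i => B i ω := measurable_pi_iff.2 hBm
  have h2 : ∀ᵐ ω ∂P, Good fun i => sg (B i ω) := ae_of_ae_map hBall.aemeasurable h1
  have h3 : ∀ᵐ ω ∂P, ∀ i, ε i ω = sg (B i ω) := by
    rw [ae_all_iff]
    intro i
    have hd : Disjoint {ω | ε i ω = 1} {ω | ε i ω = -1} := by
      rw [Set.disjoint_left]
      intro ω h1 h2
      rw [Set.mem_ofPred_eq] at h1 h2
      rw [h1] at h2
      norm_num at h2
    have hm2 : MeasurableSet {ω | ε i ω = -1} := (hm i) (MeasurableSet.singleton (-1))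
    have h4 : P ({ω | ε i ω = 1} ∪ {ω | ε i ω = -1}) = 1 := by
      rw [measure_union hd hm2]
      exact hv i
    have hm1 : MeasurableSet {ω | ε i ω = 1} := (hm i) (MeasurableSet.singleton 1)
    have h5 := (prob_compl_eq_zero_iff (hm1.union hm2)).2 h4
    refine measure_mono_null (fun ω hω => ?_) h5
    rw [Set.mem_compl_iff] at hω ⊢
    intro h6
    apply hω
    rw [Set.mem_ofPred_eq, hB]
    rcases h6 with h6 | h6
    · rw [Set.mem_ofPred_eq] at h6
      simp [sg, h6]
    · rw [Set.mem_ofPred_eq] at h6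
      have : ¬ ((-1 : ℝ) = 1) := by norm_num
      simp [sg, h6, this]
  filter_upwards [h2, h3] with ω h4 h5
  have : (fun i => ε i ω) = fun i => sg (B i ω) := funext h5
  rw [this]
  exact h4

theorem sg_meas : Measurable sg := measurable_of_countable _

theorem coin_law {ι : Type*} (i : ι) (b : Bool) :
    (Measure.infinitePi fun _ : ι => U) {s : ι → Bool | s i = b} = 1 / 2 := by
  have h1 := Measure.infinitePi_map_eval (fun _ : ι => U) i
  have h2 : {s : ι → Bool | s i = b} = (fun s : ι → Bool => s i) ⁻¹' {b} := rfl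
  rw [h2, ← Measure.map_apply (measurable_pi_apply i) (MeasurableSet.singleton b)]
  have h3 : Measure.map (fun s : ι → Bool => s i) (Measure.infinitePi fun _ : ι => U) = U := h1
  rw [h3, U_singleton, one_div]

/-- **Transfer**, from a statement about all independent uniform signs. -/
theorem transfer_uniform {ι : Type} [Countable ι] (Good : (ι → ℝ) → Prop)
    (h : ∀ {Ω : Type} [MeasurableSpace Ω] (P : Measure Ω) [IsProbabilityMeasure P] (ε : ι → Ω → ℝ),
      (∀ i, Measurable (ε i)) → iIndepFun ε P → (∀ i, P {ω | ε i ω = 1} = 1 / 2) → (∀ i, P {ω | ε i ω = -1} = 1 / 2) →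
      ∀ᵐ ω ∂P, Good fun i => ε i ω)
    {Ω : Type*} [MeasurableSpace Ω] (P : Measure Ω) [IsProbabilityMeasure P] (ε : ι → Ω → ℝ)
    (hm : ∀ i, Measurable (ε i)) (hi : iIndepFun ε P)
    (hv : ∀ i, P {ω | ε i ω = 1} + P {ω | ε i ω = -1} = 1)
    (hs : Summable fun i => ((P {ω | ε i ω = 1}).toReal - 1 / 2) ^ 2) :
    ∀ᵐ ω ∂P, Good fun i => ε i ω := by
  refine transfer Good (h _ (fun (i : ι) (s : ι → Bool) => sg (s i)) (fun i => sg_meas.comp (measurable_pi_apply i))
    (iIndepFun_infinitePi (P := fun _ : ι => U) (X := fun (_ : ι) (b : Bool) => sg b) fun _ => sg_meas)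
    (fun i => ?_) (fun i => ?_)) P ε hm hi hv hs
  · have : {s : ι → Bool | sg (s i) = 1} = {s | s i = true} := by
      ext s
      show sg (s i) = 1 ↔ s i = true
      cases h : s i
      · simp only [sg, Bool.false_eq_true, if_false, iff_false]
        norm_num
      · simp [sg]
    rw [this]
    exact coin_law i true
  · have : {s : ι → Bool | sg (s i) = -1} = {s | s i = false} := by
      ext s
      show sg (s i) = -1 ↔ s i = false
      cases h : s i
      · simp [sg]
      · simp only [sg, if_true, Bool.true_eq_false, iff_false]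
        norm_num
    rw [this]
    exact coin_law i false

end Pool.Agent.Helper32.KK
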