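import Mathlib

/-!
# Project KK: EveryScale for all modifications of the signs. Definitions
-/

set_option autoImplicit false

namespace Pool.Agent.Helper32.KK

open Finset

/-- The function `μ(n)^2 ∏_{p ∣ n} s(p)`. -/
noncomputable def sgn (s : Nat.Primes → ℝ) (n : ℕ) : ℝ :=
  if Squarefree n then ∏ p ∈ n.primeFactors.attach, s ⟨p, Nat.prime_of_mem_primeFactors p.2⟩ else 0

/-- The exponential sum. -/
noncomputable def FF (f : ℕ → ℝ) (N : ℕ) (x : ℝ) : ℂ :=
  ∑ n ∈ Icc 1 N, (f n : ℂ) * Complex.exp (2 * Real.pi * Complex.I * n * x)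

/-- The weight of a prime. -/
noncomputable def wt (p : Nat.Primes) : ℝ := 1 / Real.sqrt (p : ℕ)

end Pool.Agent.Helper32.KK
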