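import Pool.Agent.Helper32.KK.Near
import Pool.Agent.Helper32.KK.AC

/-!
# All finite modifications of the signs at once, and all thin ones
-/

set_option autoImplicit false

namespace Pool.Agent.Helper32.KK

open Finset MeasureTheory ProbabilityTheory Filter Topology
open Pool.Agent.Helper11.EA

/-- Signs take the values `1` and `-1`. -/
theorem ae_sign {ι : Type*} [Countable ι] {Ω : Type*} [MeasurableSpace Ω] (P : Measure Ω) [IsProbabilityMeasure P]
    (ε : ι → Ω → ℝ) (hm : ∀ i, Measurable (ε i)) (hv : ∀ i, P {ω | ε i ω = 1} + P {ω | ε i ω = -1} = 1) :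
    ∀ᵐ ω ∂P, ∀ i, ε i ω = 1 ∨ ε i ω = -1 := by
  rw [ae_all_iff]
  intro i
  have hd : Disjoint {ω | ε i ω = 1} {ω | ε i ω = -1} := by
    rw [Set.disjoint_left]
    intro ω h1 h2
    rw [Set.mem_ofPred_eq] at h1 h2
    rw [h1] at h2
    norm_num at h2
  have hm2 : MeasurableSet {ω | ε i ω = -1} := (hm i) (MeasurableSet.singleton (-1))
  have h4 : P ({ω | ε i ω = 1} ∪ {ω | ε i ω = -1}) = 1 := by
    rw [measure_union hd hm2]
    exact hv i
  have hm1 : MeasurableSet {ω | ε i ω = 1} := (hm i) (MeasurableSet.singleton 1)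
  have h5 := (prob_compl_eq_zero_iff (hm1.union hm2)).2 h4
  refine measure_mono_null (fun ω hω => ?_) h5
  rw [Set.mem_compl_iff] at hω ⊢
  intro h6
  exact hω h6

theorem mods (hG : ∀ {Ω : Type} [MeasurableSpace Ω] (P : Measure Ω) [IsProbabilityMeasure P] (ε : Nat.Primes → Ω → ℝ),
      (∀ i, Measurable (ε i)) → iIndepFun ε P → (∀ i, P {ω | ε i ω = 1} = 1 / 2) → (∀ i, P {ω | ε i ω = -1} = 1 / 2) →
      ∀ᵐ ω ∂P, SG fun i => ε i ω)
    {Ω : Type*} [MeasurableSpace Ω] (P : Measure Ω) [IsProbabilityMeasure P]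
    (ε : Nat.Primes → Ω → ℝ) (hm : ∀ p, Measurable (ε p)) (hi : iIndepFun ε P)
    (hv : ∀ p, P {ω | ε p ω = 1} + P {ω | ε p ω = -1} = 1)
    (hs : Summable fun p => ((P {ω | ε p ω = 1}).toReal - 1 / 2) ^ 2) :
    ∀ᵐ ω ∂P, ∀ T c : Finset Nat.Primes, SG (md T c fun p => ε p ω) := by
  classical
  rw [ae_all_iff]
  intro T
  rw [ae_all_iff]
  intro c
  obtain ⟨g, hg⟩ : ∃ g : Nat.Primes → ℝ → ℝ, g = fun p x => if p ∈ T then (if p ∈ c then 1 else -1) else x := ⟨_, rfl⟩
  have hgm : ∀ p, Measurable (g p) := by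
    intro p
    rw [hg]
    dsimp only
    split_ifs
    · exact measurable_const
    · exact measurable_const
    · exact measurable_id
  have hg1 : ∀ p, p ∉ T → ∀ x, g p x = x := by
    intro p hp x
    rw [hg]
    exact if_neg hp
  have hg2 : ∀ p, p ∈ T → (∀ x, g p x = 1) ∨ (∀ x, g p x = -1) := by
    intro p hp
    rw [hg]
    by_cases h : p ∈ c
    · left
      intro x
      simp [hp, h]
    · right
      intro x
      simp [hp, h]
  have key : ∀ᵐ ω ∂P, SG fun p => (g p ∘ ε p) ω := by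
    refine transfer_uniform SG hG P (fun p => g p ∘ ε p) (fun p => (hgm p).comp (hm p)) (hi.comp g hgm) (fun p => ?_) ?_
    · by_cases hp : p ∈ T
      · rcases hg2 p hp with h | h
        · have e1 : {ω | (g p ∘ ε p) ω = 1} = Set.univ := by
            ext ω
            simp [h]
          have e2 : {ω | (g p ∘ ε p) ω = -1} = ∅ := by
            ext ω
            simp only [Function.comp_apply, h, Set.mem_ofPred_eq, Set.mem_empty_iff_false, iff_false]
            norm_num
          rw [e1, e2, measure_univ, measure_empty, add_zero]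
        · have e1 : {ω | (g p ∘ ε p) ω = -1} = Set.univ := by
            ext ω
            simp [h]
          have e2 : {ω | (g p ∘ ε p) ω = 1} = ∅ := by
            ext ω
            simp only [Function.comp_apply, h, Set.mem_ofPred_eq, Set.mem_empty_iff_false, iff_false]
            norm_num
          rw [e1, e2, measure_univ, measure_empty, zero_add]
      · have e1 : g p ∘ ε p = ε p := funext fun ω => hg1 p hp _
        rw [e1]
        exact hv p
    · refine (summable_congr_cofinite ?_).1 hs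
      refine (T.finite_toSet.subset fun p hp => ?_)
      by_contra h
      apply hp
      have e1 : g p ∘ ε p = ε p := funext fun ω => hg1 p h _
      show ((P {ω | ε p ω = 1}).toReal - 1 / 2) ^ 2 = ((P {ω | (g p ∘ ε p) ω = 1}).toReal - 1 / 2) ^ 2
      rw [e1]
  filter_upwards [key] with ω h
  have e1 : (md T c fun p => ε p ω) = fun p => (g p ∘ ε p) ω := by
    funext p
    rw [hg]
    unfold md
    show (if p ∈ T then (if p ∈ c then (1 : ℝ) else -1) else ε p ω) = if p ∈ T then (if p ∈ c then (1 : ℝ) else -1) else ε p ω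
    rfl
  rw [e1]
  exact h

/-- The statement for all modifications on thin sets of primes. -/
theorem all_near (hG : ∀ {Ω : Type} [MeasurableSpace Ω] (P : Measure Ω) [IsProbabilityMeasure P] (ε : Nat.Primes → Ω → ℝ),
      (∀ i, Measurable (ε i)) → iIndepFun ε P → (∀ i, P {ω | ε i ω = 1} = 1 / 2) → (∀ i, P {ω | ε i ω = -1} = 1 / 2) →
      ∀ᵐ ω ∂P, SG fun i => ε i ω)
    {Ω : Type*} [MeasurableSpace Ω] (P : Measure Ω) [IsProbabilityMeasure P]
    (ε : Nat.Primes → Ω → ℝ) (hm : ∀ p, Measurable (ε p)) (hi : iIndepFun ε P)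
    (hv : ∀ p, P {ω | ε p ω = 1} + P {ω | ε p ω = -1} = 1)
    (hs : Summable fun p => ((P {ω | ε p ω = 1}).toReal - 1 / 2) ^ 2) :
    ∀ᵐ ω ∂P, ∀ s : Nat.Primes → ℝ, (∀ p, s p = 1 ∨ s p = -1) →
      (Summable fun p : Nat.Primes => |s p - ε p ω| / Real.sqrt (p : ℕ)) → SG s := by
  filter_upwards [mods hG P ε hm hi hv hs, ae_sign P ε hm hv] with ω h1 h2 s hs1 hs2
  exact near (fun p => ε p ω) h2 h1 s hs1 hs2

end Pool.Agent.Helper32.KK
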