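import Pool.Agent.Helper32.KK.Stable
import Pool.Agent.Helper31.KK.P23

/-!
# All signs which differ from good signs on a thin set of primes
-/

set_option autoImplicit false

namespace Pool.Agent.Helper32.KK

open Finset MeasureTheory Filter Topology
open Pool.Agent.Helper11.EA

/-- The signs are prescribed on `T` (`1` on `c`, `-1` outside `c`). -/
noncomputable def md (T c : Finset Nat.Primes) (s : Nat.Primes → ℝ) (p : Nat.Primes) : ℝ :=
  open Classical in if p ∈ T then (if p ∈ c then 1 else -1) else s p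

/-- The statement about open sets, for all `κ`. -/
def SG (s : Nat.Primes → ℝ) : Prop := ∀ κ : ℝ, 0 ≤ κ → κ < 1 → OC (FF (sgn s)) κ

theorem FF_continuous (f : ℕ → ℝ) (N : ℕ) : Continuous (FF f N) := by
  unfold FF
  fun_prop

theorem FF_sub_int (f : ℕ → ℝ) (N : ℕ) (x : ℝ) (m : ℤ) : FF f N (x - m) = FF f N x := by
  unfold FF
  refine Finset.sum_congr rfl fun n _ => ?_
  congr 1
  have h1 : (2 * Real.pi * Complex.I * n * ((x - m : ℝ) : ℂ)) = 2 * Real.pi * Complex.I * n * x + ((-(n * m) : ℤ) : ℂ) * (2 * Real.pi * Complex.I) := by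
    push_cast
    ring
  rw [h1, Complex.exp_add, Complex.exp_int_mul_two_pi_mul_I, mul_one]

theorem FF_le (f : ℕ → ℝ) (N : ℕ) (x : ℝ) : ‖FF f N x‖ ≤ ∑ n ∈ Icc 1 N, |f n| := by
  unfold FF
  refine (norm_sum_le _ _).trans (Finset.sum_le_sum fun n _ => ?_)
  have h1 : (2 * Real.pi * Complex.I * n * (x : ℂ)) = ((2 * Real.pi * n * x : ℝ) : ℂ) * Complex.I := by
    push_cast
    ring
  rw [norm_mul, h1, Complex.norm_exp_ofReal_mul_I, mul_one, Complex.norm_real, Real.norm_eq_abs]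

theorem rd_lt_one : Real.sqrt (1 - 0) * (Real.sqrt 6 / Real.pi) < 1 := by
  rw [sub_zero, Real.sqrt_one, one_mul, div_lt_one Real.pi_pos]
  have h1 : Real.sqrt 6 < 3 := by
    rw [Real.sqrt_lt' (by norm_num)]
    norm_num
  linarith [Real.pi_gt_three]

/-- The upper bound for the maximum. -/
theorem sup_le (f : ℕ → ℝ) (h : OC (FF f) 0) : ∀ᶠ N : ℕ in atTop, ∀ x : ℝ, ‖FF f N x‖ ≤ Real.sqrt (N * Real.log N) := by
  have hO : IsOpen {z : ℂ | 1 < ‖z‖} := isOpen_lt continuous_const continuous_norm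
  have hd : (1 : ℝ) ≤ Metric.infDist 0 {z : ℂ | 1 < ‖z‖} := by
    refine (Metric.le_infDist ⟨2, ?_⟩).2 fun {y} hy => ?_
    · show (1 : ℝ) < ‖(2 : ℂ)‖
      norm_num
    · rw [dist_zero_left]
      exact le_of_lt hy
  filter_upwards [(h _ hO).2 (lt_of_lt_of_le rd_lt_one hd), eventually_gt_atTop 1] with N hN hN1 x
  obtain ⟨a, ha⟩ := hN
  have h1 := ha (x - ⌊x - a⌋) (by linarith [Int.floor_le (x - a)]) (by
    rw [neg_zero, Real.rpow_zero]
    linarith [Int.lt_floor_add_one (x - a)])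
  have hpos : 0 < Real.sqrt (N * Real.log N) := by
    refine Real.sqrt_pos.2 (mul_pos (by exact_mod_cast (by omega : 0 < N)) (Real.log_pos (by exact_mod_cast hN1)))
  have h2 : ‖nrm (FF f) N (x - ⌊x - a⌋)‖ ≤ 1 := not_lt.1 h1
  rw [norm_nrm, FF_sub_int, div_le_one hpos] at h2
  exact h2

theorem sup_le_all (f : ℕ → ℝ) (h : OC (FF f) 0) :
    ∀ᶠ N : ℕ in atTop, ∀ M ≤ N, ∀ x : ℝ, ‖FF f M x‖ ≤ (2 * Real.sqrt (Real.log N)) * Real.sqrt M := by
  obtain ⟨N₀, hN₀⟩ := eventually_atTop.1 (sup_le f h)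
  obtain ⟨C, hC⟩ : ∃ C, C = ∑ n ∈ Icc 1 N₀, |f n| := ⟨_, rfl⟩
  have hC0 : 0 ≤ C := by
    rw [hC]
    exact Finset.sum_nonneg fun n _ => abs_nonneg _
  have hlog : Tendsto (fun N : ℕ => Real.sqrt (Real.log N)) atTop atTop :=
    Real.tendsto_sqrt_atTop.comp (Real.tendsto_log_atTop.comp tendsto_natCast_atTop_atTop)
  filter_upwards [hlog.eventually_ge_atTop C, eventually_gt_atTop 0] with N hN hN0 M hM x
  rcases Nat.eq_zero_or_pos M with hM0 | hM0
  · rw [hM0]
    unfold FF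
    simp
  have hM1 : (1 : ℝ) ≤ Real.sqrt M := by
    rw [Real.one_le_sqrt]
    exact_mod_cast hM0
  have hL0 : 0 ≤ Real.sqrt (Real.log N) := Real.sqrt_nonneg _
  by_cases hM2 : N₀ ≤ M
  · refine (hN₀ M hM2 x).trans ?_
    have h0 : (0 : ℝ) ≤ M := Nat.cast_nonneg _
    rw [Real.sqrt_mul h0, mul_comm]
    refine mul_le_mul_of_nonneg_right ?_ (Real.sqrt_nonneg _)
    have : Real.sqrt (Real.log M) ≤ Real.sqrt (Real.log N) :=
      Real.sqrt_le_sqrt (Real.log_le_log (by exact_mod_cast hM0) (by exact_mod_cast hM))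
    linarith
  · have h1 : ‖FF f M x‖ ≤ C := by
      refine (FF_le f M x).trans ?_
      rw [hC]
      exact Finset.sum_le_sum_of_subset_of_nonneg (Finset.Icc_subset_Icc le_rfl (by omega)) fun n _ _ => abs_nonneg _
    have h2 : 2 * Real.sqrt (Real.log N) ≤ 2 * Real.sqrt (Real.log N) * Real.sqrt M := le_mul_of_one_le_right (by linarith) hM1
    linarith

/-- the primes up to `N` -/
def upTo (N : ℕ) : Finset Nat.Primes := (Finset.range (N + 1)).subtype Nat.Prime

theorem mem_upTo {N : ℕ} {p : Nat.Primes} : p ∈ upTo N ↔ (p : ℕ) ≤ N := by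
  show p ∈ (Finset.range (N + 1)).subtype Nat.Prime ↔ _
  have h1 : p ∈ (Finset.range (N + 1)).subtype Nat.Prime ↔ (p : ℕ) ∈ Finset.range (N + 1) := Finset.mem_subtype
  rw [h1, Finset.mem_range]
  omega

/-- The deterministic statement. -/
theorem near (e : Nat.Primes → ℝ) (he : ∀ p, e p = 1 ∨ e p = -1) (hG : ∀ T c : Finset Nat.Primes, SG (md T c e))
    (s : Nat.Primes → ℝ) (hs : ∀ p, s p = 1 ∨ s p = -1) (hD : Summable fun p : Nat.Primes => |s p - e p| / Real.sqrt (p : ℕ)) : SG s := by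
  classical
  intro κ hκ0 hκ1
  refine stable _ κ hκ0 hκ1 fun η hη => ?_
  obtain ⟨δ, hδ⟩ : ∃ δ, δ = 2 / 7 * Real.log (1 + η / 2) := ⟨_, rfl⟩
  have hδ0 : 0 < δ := by
    rw [hδ]
    have : 0 < Real.log (1 + η / 2) := Real.log_pos (by linarith)
    positivity
  obtain ⟨T₀, hT₀⟩ := summable_iff_vanishing_norm.1 hD δ hδ0
  obtain ⟨s₀, hs₀⟩ : ∃ s₀, s₀ = md T₀ (T₀.filter fun p => s p = 1) e := ⟨_, rfl⟩
  have hs₀1 : ∀ p ∈ T₀, s₀ p = s p := by
    intro p hp
    rw [hs₀]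
    unfold md
    rw [if_pos hp]
    rcases hs p with h1 | h1
    · rw [if_pos (Finset.mem_filter.2 ⟨hp, h1⟩), h1]
    · rw [if_neg, h1]
      intro h2
      have := (Finset.mem_filter.1 h2).2
      rw [h1] at this
      norm_num at this
  have hs₀2 : ∀ p, p ∉ T₀ → s₀ p = e p := by
    intro p hp
    rw [hs₀]
    unfold md
    rw [if_neg hp]
  have hs₀3 : ∀ p, s₀ p = 1 ∨ s₀ p = -1 := by
    intro p
    by_cases hp : p ∈ T₀
    · rw [hs₀1 p hp]
      exact hs p
    · rw [hs₀2 p hp]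
      exact he p
  have hGs₀ : SG s₀ := by
    rw [hs₀]
    exact hG _ _
  refine ⟨FF (sgn s₀), hGs₀ κ hκ0 hκ1, ?_⟩
  filter_upwards [sup_le_all _ (hGs₀ 0 le_rfl zero_lt_one), eventually_gt_atTop 1] with N hN hN1 x
  obtain ⟨s', hs'⟩ : ∃ s' : Nat.Primes → ℝ, s' = fun p : Nat.Primes => if (p : ℕ) ≤ N then s p else s₀ p := ⟨_, rfl⟩
  have hs'1 : ∀ p, s' p = 1 ∨ s' p = -1 := by
    intro p
    rw [hs']
    dsimp only
    split_ifs
    · exact hs p
    · exact hs₀3 p
  obtain ⟨T, hT⟩ : ∃ T : Finset Nat.Primes, T = (upTo N).filter fun p => s p ≠ s₀ p := ⟨_, rfl⟩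
  have hTs : ∀ p, p ∉ T → s' p = s₀ p := by
    intro p hp
    rw [hs']
    dsimp only
    split_ifs with h1
    · by_contra h2
      refine hp ?_
      rw [hT, Finset.mem_filter]
      exact ⟨mem_upTo.2 h1, h2⟩
    · rfl
  have hTd : Disjoint T T₀ := by
    rw [Finset.disjoint_left]
    intro p hp hp0
    rw [hT, Finset.mem_filter] at hp
    exact hp.2 (hs₀1 p hp0).symm
  have hsum : 7 * ∑ p ∈ T, wt p ≤ Real.log (1 + η / 2) := by
    have h1 := hT₀ T hTd
    have h2 : ∑ p ∈ T, |s p - e p| / Real.sqrt (p : ℕ) = 2 * ∑ p ∈ T, wt p := by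
      rw [Finset.mul_sum]
      refine Finset.sum_congr rfl fun p hp => ?_
      have hp0 : p ∉ T₀ := Finset.disjoint_left.1 hTd hp
      rw [hT, Finset.mem_filter, hs₀2 p hp0] at hp
      have h3 : |s p - e p| = 2 := by
        rcases hs p with h4 | h4 <;> rcases he p with h5 | h5
        · exact absurd (h4.trans h5.symm) hp.2
        · rw [h4, h5]
          norm_num
        · rw [h4, h5]
          norm_num
        · exact absurd (h4.trans h5.symm) hp.2
      rw [h3]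
      unfold wt
      ring
    rw [h2, Real.norm_eq_abs] at h1
    have h3 := lt_of_le_of_lt (le_abs_self _) h1
    rw [hδ] at h3
    linarith
  have hexp : Real.exp (7 * ∑ p ∈ T, wt p) - 1 ≤ η / 2 := by
    have h1 := Real.exp_le_exp.2 hsum
    rw [Real.exp_log (by linarith)] at h1
    linarith
  have hB : 0 ≤ 2 * Real.sqrt (Real.log N) := by positivity
  have h1 := flip_many s₀ s' hs₀3 hs'1 T hTs hB hN N le_rfl x
  have h2 : FF (sgn s') N x = FF (sgn s) N x := by
    refine sgn_congr s s' (fun p hp => ?_) x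
    rw [hs']
    exact if_pos hp
  rw [h2] at h1
  have hN0 : (0 : ℝ) ≤ N := Nat.cast_nonneg _
  have hpos : 0 < Real.sqrt (N * Real.log N) := by
    refine Real.sqrt_pos.2 (mul_pos (by exact_mod_cast (by omega : 0 < N)) (Real.log_pos (by exact_mod_cast hN1)))
  unfold nrm
  rw [← sub_div, norm_div, Complex.norm_real, Real.norm_of_nonneg hpos.le, div_le_iff₀ hpos]
  refine h1.trans ?_
  rw [Real.sqrt_mul hN0]
  have h3 : (Real.exp (7 * ∑ p ∈ T, wt p) - 1) * (2 * Real.sqrt (Real.log N)) * Real.sqrt N =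
      (Real.exp (7 * ∑ p ∈ T, wt p) - 1) * (2 * (Real.sqrt N * Real.sqrt (Real.log N))) := by ring
  rw [h3]
  have h4 : 0 ≤ Real.sqrt N * Real.sqrt (Real.log N) := by positivity
  have h5 := mul_le_mul_of_nonneg_right hexp (show 0 ≤ 2 * (Real.sqrt N * Real.sqrt (Real.log N)) by linarith)
  linarith

end Pool.Agent.Helper32.KK
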