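import Pool.Agent.Helper11.EA3.MaxMin
import Pool.Agent.Helper32.KK.Defs

/-!
# The conclusion of EveryScale is stable under perturbations of size `o(√(N log N))`
-/

set_option autoImplicit false

namespace Pool.Agent.Helper32.KK

open Finset MeasureTheory Filter Topology
open Pool.Agent.Helper11.EA

/-- the least measure of the set of `x` with a value in `O` -/
noncomputable def lm (H : ℕ → ℝ → ℂ) (κ : ℝ) (O : Set ℂ) (N : ℕ) : ℝ :=
  ⨅ a : ℝ, (volume {x : ℝ | a ≤ x ∧ x ≤ a + (N : ℝ) ^ (-κ) ∧ nrm H N x ∈ O}).toReal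

theorem lm_mono (H K : ℕ → ℝ → ℂ) (κ : ℝ) (O O' : Set ℂ) (N : ℕ) (h : ∀ x, nrm H N x ∈ O → nrm K N x ∈ O') :
    lm H κ O N ≤ lm K κ O' N := by
  unfold lm
  refine ciInf_mono ⟨0, ?_⟩ fun a => ?_
  · rintro _ ⟨a, rfl⟩
    exact ENNReal.toReal_nonneg
  · refine ENNReal.toReal_mono ?_ (measure_mono fun x hx => ⟨hx.1, hx.2.1, h x hx.2.2⟩)
    refine ne_top_of_le_ne_top ?_ (measure_mono (t := Set.Icc a (a + (N : ℝ) ^ (-κ))) fun x hx => ⟨hx.1, hx.2.1⟩)
    rw [Real.volume_Icc]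
    exact ENNReal.ofReal_ne_top

theorem lm_nonneg (H : ℕ → ℝ → ℂ) (κ : ℝ) (O : Set ℂ) (N : ℕ) : 0 ≤ lm H κ O N := by
  unfold lm
  exact Real.iInf_nonneg fun a => ENNReal.toReal_nonneg

/-- the statement about open sets -/
def OC (H : ℕ → ℝ → ℂ) (κ : ℝ) : Prop := ∀ O : Set ℂ, IsOpen O →
  ((∃ z ∈ O, ‖z‖ < Real.sqrt (1 - κ) * (Real.sqrt 6 / Real.pi)) → Tendsto (fun N : ℕ => Real.log (lm H κ O N) / Real.log N) atTop
    (𝓝 (-κ - Real.pi ^ 2 / 6 * Metric.infDist 0 O ^ 2))) ∧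
  (Real.sqrt (1 - κ) * (Real.sqrt 6 / Real.pi) < Metric.infDist 0 O →
    ∀ᶠ N : ℕ in atTop, ∃ a : ℝ, ∀ x : ℝ, a ≤ x → x ≤ a + (N : ℝ) ^ (-κ) → nrm H N x ∉ O)

theorem infDist_thickening (O : Set ℂ) (hO : O.Nonempty) (η : ℝ) (hη : 0 < η) :
    Metric.infDist 0 O - η ≤ Metric.infDist 0 (Metric.thickening η O) := by
  refine (Metric.le_infDist (hO.mono (Metric.self_subset_thickening hη O))).2 fun {y} hy => ?_
  rw [Metric.mem_thickening_iff] at hy
  obtain ⟨z, hz, hyz⟩ := hy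
  have h1 := Metric.infDist_le_dist_of_mem (x := (0 : ℂ)) hz
  have h2 := dist_triangle (0 : ℂ) y z
  linarith

theorem stable (H : ℕ → ℝ → ℂ) (κ : ℝ) (hκ0 : 0 ≤ κ) (hκ1 : κ < 1)
    (h : ∀ η : ℝ, 0 < η → ∃ K : ℕ → ℝ → ℂ, OC K κ ∧ ∀ᶠ N : ℕ in atTop, ∀ x, ‖nrm H N x - nrm K N x‖ ≤ η) : OC H κ := by
  intro O hO
  obtain ⟨R, hR⟩ : ∃ R, R = Real.sqrt (1 - κ) * (Real.sqrt 6 / Real.pi) := ⟨_, rfl⟩
  have hR0 : 0 < R := by
    rw [hR]
    have h1 : 0 < Real.sqrt (1 - κ) := Real.sqrt_pos.2 (by linarith)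
    have h2 : 0 < Real.sqrt 6 := Real.sqrt_pos.2 (by norm_num)
    have h3 := Real.pi_pos
    positivity
  -- thickening
  have hth : ∀ η : ℝ, 0 < η → ∃ K : ℕ → ℝ → ℂ, OC K κ ∧ ∀ᶠ N : ℕ in atTop, ∀ x, nrm H N x ∈ O → nrm K N x ∈ Metric.thickening η O := by
    intro η hη
    obtain ⟨K, hK1, hK2⟩ := h (η / 2) (by linarith)
    refine ⟨K, hK1, ?_⟩
    filter_upwards [hK2] with N hN x hx
    rw [Metric.mem_thickening_iff]
    refine ⟨_, hx, ?_⟩
    rw [dist_comm, dist_eq_norm]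
    linarith [hN x]
  refine ⟨fun hz => ?_, fun hd => ?_⟩
  · rw [← hR] at hz
    obtain ⟨z₀, hz₀, hz₀R⟩ := hz
    have hne : O.Nonempty := ⟨z₀, hz₀⟩
    obtain ⟨d, hd⟩ : ∃ d, d = Metric.infDist 0 O := ⟨_, rfl⟩
    have hd0 : 0 ≤ d := by
      rw [hd]
      exact Metric.infDist_nonneg
    have hdR : d < R := by
      have := Metric.infDist_le_dist_of_mem (x := (0 : ℂ)) hz₀
      rw [dist_zero_left] at this
      linarith
    rw [← hd]
    -- lower bound
    have hlow : ∀ b : ℝ, b < -κ - Real.pi ^ 2 / 6 * d ^ 2 → ∀ᶠ N : ℕ in atTop,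
        b < Real.log (lm H κ O N) / Real.log N ∧ 0 < lm H κ O N := by
      intro b hb
      -- choice of the point
      obtain ⟨ζ, hζ, hζb, hζR⟩ : ∃ ζ : ℝ, 0 < ζ ∧ b < -κ - Real.pi ^ 2 / 6 * (d + ζ) ^ 2 ∧ d + ζ < R := by
        have hc : Tendsto (fun ζ : ℝ => -κ - Real.pi ^ 2 / 6 * (d + ζ) ^ 2) (𝓝[>] 0) (𝓝 (-κ - Real.pi ^ 2 / 6 * (d + 0) ^ 2)) := by
          refine (Continuous.tendsto (by fun_prop) 0).mono_left nhdsWithin_le_nhds
        have hc2 : Tendsto (fun ζ : ℝ => d + ζ) (𝓝[>] 0) (𝓝 (d + 0)) :=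
          (Continuous.tendsto (by fun_prop) 0).mono_left nhdsWithin_le_nhds
        rw [add_zero] at hc hc2
        obtain ⟨ζ, h1, h2, h3⟩ := ((hc.eventually (lt_mem_nhds hb)).and ((hc2.eventually (gt_mem_nhds hdR)).and
          self_mem_nhdsWithin)).exists
        exact ⟨ζ, h3, h1, h2⟩
      have hopen : IsOpen (O ∩ Metric.ball 0 (d + ζ)) := hO.inter Metric.isOpen_ball
      obtain ⟨z₁, hz₁, hz₁0⟩ : ∃ z₁ ∈ O ∩ Metric.ball 0 (d + ζ), z₁ ≠ 0 := by
        obtain ⟨y, hy, hyd⟩ := (Metric.infDist_lt_iff hne).1 (show Metric.infDist 0 O < d + ζ by linarith)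
        have hy' : y ∈ O ∩ Metric.ball 0 (d + ζ) := ⟨hy, by rw [Metric.mem_ball, dist_comm]; exact hyd⟩
        obtain ⟨r, hr, hrb⟩ := Metric.isOpen_iff.1 hopen y hy'
        by_cases hy0 : y = 0
        · refine ⟨((r / 2 : ℝ) : ℂ), hrb ?_, ?_⟩
          · rw [Metric.mem_ball, hy0, dist_zero_right, Complex.norm_real, Real.norm_of_nonneg (by linarith)]
            linarith
          · rw [Complex.ofReal_ne_zero]
            linarith
        · exact ⟨y, hy', hy0⟩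
      have hz₁n : 0 < ‖z₁‖ := norm_pos_iff.2 hz₁0
      have hz₁d : ‖z₁‖ < d + ζ := by
        have := hz₁.2
        rwa [Metric.mem_ball, dist_zero_right] at this
      obtain ⟨r₀, hr₀, hr₀b⟩ := Metric.isOpen_iff.1 hO z₁ hz₁.1
      obtain ⟨r, hr, hrr₀, hrz⟩ : ∃ r : ℝ, 0 < r ∧ r ≤ r₀ ∧ r ≤ ‖z₁‖ :=
        ⟨min r₀ ‖z₁‖, lt_min hr₀ hz₁n, min_le_left _ _, min_le_right _ _⟩
      obtain ⟨K, hK1, hK2⟩ := h (r / 2) (by linarith)
      obtain ⟨t, ht⟩ : ∃ t, t = Metric.infDist 0 (Metric.ball z₁ (r / 2)) := ⟨_, rfl⟩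
      have ht1 : t ≤ ‖z₁‖ := by
        rw [ht]
        have := Metric.infDist_le_dist_of_mem (x := (0 : ℂ)) (Metric.mem_ball_self (x := z₁) (show 0 < r / 2 by linarith))
        rwa [dist_zero_left] at this
      have ht2 : 0 < t := by
        have h1 : ‖z₁‖ - r / 2 ≤ t := by
          rw [ht]
          refine (Metric.le_infDist ⟨z₁, Metric.mem_ball_self (by linarith)⟩).2 fun {y} hy => ?_
          rw [Metric.mem_ball] at hy
          have := dist_triangle (0 : ℂ) y z₁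
          rw [dist_zero_left z₁] at this
          linarith
        linarith
      have hlim := (hK1 (Metric.ball z₁ (r / 2)) Metric.isOpen_ball).1 ⟨z₁, Metric.mem_ball_self (by linarith), by
        rw [← hR]
        linarith⟩
      rw [← ht] at hlim
      have hpi : 0 < Real.pi ^ 2 / 6 := by
        have := Real.pi_pos
        positivity
      have hb' : b < -κ - Real.pi ^ 2 / 6 * t ^ 2 := by
        have h1 : t ^ 2 ≤ (d + ζ) ^ 2 := pow_le_pow_left₀ ht2.le (by linarith) 2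
        have h2 := mul_le_mul_of_nonneg_left h1 hpi.le
        linarith
      have hneg : -κ - Real.pi ^ 2 / 6 * t ^ 2 < 0 := by
        have : 0 < Real.pi ^ 2 / 6 * t ^ 2 := by positivity
        linarith
      filter_upwards [hlim.eventually (lt_mem_nhds hb'), hlim.eventually (gt_mem_nhds hneg), hK2, eventually_gt_atTop 1] with N h1 h2 h3 h4
      have hlog : 0 < Real.log N := Real.log_pos (by exact_mod_cast h4)
      have h5 : lm K κ (Metric.ball z₁ (r / 2)) N ≤ lm H κ O N := by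
        refine lm_mono _ _ _ _ _ _ fun x hx => hr₀b ?_
        rw [Metric.mem_ball] at hx ⊢
        have h6 := dist_triangle (nrm H N x) (nrm K N x) z₁
        have h7 := h3 x
        rw [← dist_eq_norm] at h7
        linarith
      have h6 : 0 < lm K κ (Metric.ball z₁ (r / 2)) N := by
        refine lt_of_le_of_ne (lm_nonneg _ _ _ _) fun h7 => ?_
        rw [← h7, Real.log_zero, zero_div] at h2
        exact lt_irrefl _ h2
      refine ⟨lt_of_lt_of_le h1 ?_, lt_of_lt_of_le h6 h5⟩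
      exact div_le_div_of_nonneg_right (Real.log_le_log h6 h5) hlog.le
    refine tendsto_order.2 ⟨fun b hb => (hlow b hb).mono fun N hN => hN.1, fun b hb => ?_⟩
    -- upper bound
    obtain ⟨η, hη, hηb⟩ : ∃ η : ℝ, 0 < η ∧ -κ - Real.pi ^ 2 / 6 * (max (d - η) 0) ^ 2 < b := by
      have hc : Tendsto (fun η : ℝ => -κ - Real.pi ^ 2 / 6 * (max (d - η) 0) ^ 2) (𝓝[>] 0)
          (𝓝 (-κ - Real.pi ^ 2 / 6 * (max (d - 0) 0) ^ 2)) :=
        (Continuous.tendsto (by fun_prop) 0).mono_left nhdsWithin_le_nhds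
      rw [sub_zero, max_eq_left hd0] at hc
      obtain ⟨η, h1, h2⟩ := ((hc.eventually (gt_mem_nhds hb)).and self_mem_nhdsWithin).exists
      exact ⟨η, h2, h1⟩
    obtain ⟨K, hK1, hK2⟩ := hth η hη
    have hz₀' : z₀ ∈ Metric.thickening η O := Metric.self_subset_thickening hη O hz₀
    have hlim := (hK1 (Metric.thickening η O) Metric.isOpen_thickening).1 ⟨z₀, hz₀', by
      rw [← hR]
      exact hz₀R⟩
    obtain ⟨t, ht⟩ : ∃ t, t = Metric.infDist 0 (Metric.thickening η O) := ⟨_, rfl⟩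
    rw [← ht] at hlim
    have ht1 : max (d - η) 0 ≤ t := by
      rw [ht, hd]
      exact max_le (infDist_thickening O hne η hη) Metric.infDist_nonneg
    have hpi : 0 < Real.pi ^ 2 / 6 := by
      have := Real.pi_pos
      positivity
    have hb' : -κ - Real.pi ^ 2 / 6 * t ^ 2 < b := by
      have h1 : (max (d - η) 0) ^ 2 ≤ t ^ 2 := pow_le_pow_left₀ (le_max_right _ _) ht1 2
      have h2 := mul_le_mul_of_nonneg_left h1 hpi.le
      linarith
    filter_upwards [hlim.eventually (gt_mem_nhds hb'), hK2, eventually_gt_atTop 1,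
      hlow (-κ - Real.pi ^ 2 / 6 * d ^ 2 - 1) (by linarith)] with N h1 h2 h3 h4
    have hlog : 0 < Real.log N := Real.log_pos (by exact_mod_cast h3)
    have h5 : lm H κ O N ≤ lm K κ (Metric.thickening η O) N := lm_mono _ _ _ _ _ _ h2
    refine lt_of_le_of_lt ?_ h1
    exact div_le_div_of_nonneg_right (Real.log_le_log h4.2 h5) hlog.le
  · rw [← hR] at hd
    have hne : O.Nonempty := by
      by_contra hne
      rw [Set.not_nonempty_iff_eq_empty] at hne
      rw [hne, Metric.infDist_empty] at hd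
      linarith
    obtain ⟨η, hη⟩ : ∃ η, η = (Metric.infDist 0 O - R) / 2 := ⟨_, rfl⟩
    have hη0 : 0 < η := by linarith
    obtain ⟨K, hK1, hK2⟩ := hth η hη0
    have h1 := (hK1 (Metric.thickening η O) Metric.isOpen_thickening).2 (by
      rw [← hR]
      linarith [infDist_thickening O hne η hη0])
    filter_upwards [h1, hK2] with N h2 h3
    obtain ⟨a, ha⟩ := h2
    exact ⟨a, fun x hx1 hx2 hx3 => ha x hx1 hx2 (h3 x hx3)⟩

end Pool.Agent.Helper32.KK
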